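import Pool.Agent.H705.RO.Stm

set_option autoImplicit false

open Finset
open Pool.Agent.H705.RO

namespace Pool.Agent.H230.RO

theorem T_SUM : P_SUM := by
  intro p hp
  set r : ℝ := (2:ℝ) ^ (-(p / 2)) with hr
  have hr0 : 0 < r := Real.rpow_pos_of_pos (by norm_num) _
  have hr1 : r < 1 := Real.rpow_lt_one_of_one_lt_of_neg (by norm_num) (by linarith)
  have hrp : ∀ i : ℕ, (2:ℝ) ^ (-(p * i / 2)) = r ^ i := by
    intro i
    rw [hr, ← Real.rpow_natCast, ← Real.rpow_mul (by norm_num)]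
    congr 1
    ring
  set w : ℕ → ℝ := fun i => (1 + (i:ℝ)) * r ^ i with hw
  have hw0 : ∀ i, 0 ≤ w i := fun i => by
    simp only [hw]
    positivity
  have hsum : Summable w := by
    have hn : ‖r‖ < 1 := by rw [Real.norm_of_nonneg hr0.le]; exact hr1
    have h1 := summable_pow_mul_geometric_of_norm_lt_one 1 hn
    have h2 := summable_geometric_of_lt_one hr0.le hr1
    have h3 := h2.add h1
    refine h3.congr fun i => ?_
    simp only [hw]
    ring
  have hle : ∀ d, ∑ i ∈ range d, w i ≤ ∑' i, w i := fun d =>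
    hsum.sum_le_tsum _ fun i _ => hw0 i
  have hc0 : 0 ≤ ∑' i, w i := tsum_nonneg hw0
  refine ⟨2 * ∑' i, w i, by positivity, ?_⟩
  intro f K k hK hblk J M M' hJM hMM'
  set B : ℝ := K * (2 : ℝ) ^ (-(p * J / 2)) * Real.sqrt ((J : ℝ) + k + 1) with hB
  have hB0 : 0 ≤ B := by positivity
  have key : ∀ d M' : ℕ, 2 ^ J ≤ M' → M' ≤ 2 ^ (J + d) →
      |∑ n ∈ Ico (2 ^ J) M', f n| ≤ B * ∑ i ∈ range d, w i := by
    intro d
    induction d with
    | zero =>
      intro M' h1 h2
      have h3 : M' = 2 ^ J := le_antisymm h2 h1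
      rw [h3]
      simp
    | succ d ih =>
      intro M' h1 h2
      rw [sum_range_succ, mul_add]
      rcases le_total M' (2 ^ (J + d)) with h3 | h3
      · have h4 := ih M' h1 h3
        have h5 : 0 ≤ B * w d := mul_nonneg hB0 (hw0 d)
        linarith
      · have h4 : 2 ^ J ≤ 2 ^ (J + d) := Nat.pow_le_pow_right (by norm_num) (by omega)
        have h5 := ih (2 ^ (J + d)) h4 le_rfl
        have h6 := hblk (J + d) M' h3 h2
        have h7 : ∑ n ∈ Ico (2 ^ J) M', f n =
            ∑ n ∈ Ico (2 ^ J) (2 ^ (J + d)), f n + ∑ n ∈ Ico (2 ^ (J + d)) M', f n :=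
          (sum_Ico_consecutive f h4 h3).symm
        have h8 : K * (2 : ℝ) ^ (-(p * ((J + d : ℕ) : ℝ) / 2)) *
            Real.sqrt (((J + d : ℕ) : ℝ) + k + 1) ≤ B * w d := by
          have h9 : Real.sqrt (((J + d : ℕ) : ℝ) + k + 1) ≤
              Real.sqrt ((J : ℝ) + k + 1) * (1 + d) := by
            have h10 : Real.sqrt ((J : ℝ) + k + 1) * (1 + d) =
                Real.sqrt (((J : ℝ) + k + 1) * (1 + (d:ℝ)) ^ 2) := by
              rw [Real.sqrt_mul (by positivity), Real.sqrt_sq (by positivity)]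
            rw [h10]
            apply Real.sqrt_le_sqrt
            push_cast
            have e1 : (0:ℝ) ≤ J := by positivity
            have e2 : (0:ℝ) ≤ d := by positivity
            have e3 : (0:ℝ) ≤ k := by positivity
            nlinarith [mul_nonneg e1 e2, mul_nonneg e3 e2, mul_nonneg e1 (mul_nonneg e2 e2),
              mul_nonneg e3 (mul_nonneg e2 e2), mul_nonneg e2 e2]
          have h11 : (2 : ℝ) ^ (-(p * ((J + d : ℕ) : ℝ) / 2)) =
              (2 : ℝ) ^ (-(p * J / 2)) * r ^ d := by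
            rw [hrp, hrp, pow_add]
          rw [h11, hB]
          have h12 : K * ((2 : ℝ) ^ (-(p * J / 2)) * r ^ d) *
              Real.sqrt (((J + d : ℕ) : ℝ) + k + 1) ≤
              K * ((2 : ℝ) ^ (-(p * J / 2)) * r ^ d) * (Real.sqrt ((J : ℝ) + k + 1) * (1 + d)) :=
            mul_le_mul_of_nonneg_left h9 (by positivity)
          refine h12.trans (le_of_eq ?_)
          simp only [hw]
          ring
        rw [h7]
        have h13 := abs_add_le (∑ n ∈ Ico (2 ^ J) (2 ^ (J + d)), f n)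
          (∑ n ∈ Ico (2 ^ (J + d)) M', f n)
        linarith
  have key2 : ∀ M' : ℕ, 2 ^ J ≤ M' → |∑ n ∈ Ico (2 ^ J) M', f n| ≤ B * ∑' i, w i := by
    intro M' h1
    have h2 : M' ≤ 2 ^ (J + M') :=
      (Nat.lt_two_pow_self).le.trans (Nat.pow_le_pow_right (by norm_num) (by omega))
    exact (key M' M' h1 h2).trans (mul_le_mul_of_nonneg_left (hle _) hB0)
  have h1 := key2 M hJM
  have h2 := key2 M' (hJM.trans hMM')
  have h3 : ∑ n ∈ Ico M M', f n = ∑ n ∈ Ico (2 ^ J) M', f n - ∑ n ∈ Ico (2 ^ J) M, f n := by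
    rw [← sum_Ico_consecutive f hJM hMM']
    ring
  rw [h3]
  have h4 := abs_sub (∑ n ∈ Ico (2 ^ J) M', f n) (∑ n ∈ Ico (2 ^ J) M, f n)
  have h5 : 2 * (∑' i, w i) * K * (2 : ℝ) ^ (-(p * J / 2)) * Real.sqrt ((J : ℝ) + k + 1) =
      B * ∑' i, w i + B * ∑' i, w i := by
    rw [hB]
    ring
  rw [h5]
  linarith

end Pool.Agent.H230.RO
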